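import Mathlib
import Pool.Agent.Helper95.FL.Stmts2

set_option autoImplicit false

/-!
# XT-A7: greedy choice of values
-/

namespace Pool.Agent.Helper96.FL

open Pool.Agent.Helper95.FL
open scoped Classical

theorem greedy_aux (E : Type) [Fintype E] (F : Finset (E → ℤ)) (K : ℕ)
    (hK : ∀ e, (F.filter fun f => f e ≠ 0).card ≤ K) (A : Finset E) :
    ∃ y : E → ℤ, (∀ e, 1 ≤ y e ∧ y e ≤ K + 1) ∧
      ∀ f ∈ F, f ≠ 0 → (∀ e, e ∉ A → f e = 0) → ∑ e, f e * y e ≠ 0 := by
  induction A using Finset.induction_on with
  | empty =>
    refine ⟨fun _ => 1, fun e => ⟨le_refl _, by simp⟩, ?_⟩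
    intro f _ hf0 hf
    exact absurd (funext fun e => hf e (Finset.notMem_empty e)) hf0
  | insert a A ha ih =>
    obtain ⟨y, hy, hyF⟩ := ih
    have hcard : ((F.filter fun f => f a ≠ 0).image
        fun f => (-(∑ e ∈ Finset.univ.erase a, f e * y e)) / f a).card
          < (Finset.Icc (1 : ℤ) (K + 1)).card := by
      refine lt_of_le_of_lt (Finset.card_image_le.trans (hK a)) ?_
      rw [Int.card_Icc]
      omega
    obtain ⟨v, hv, hvn⟩ := Finset.exists_mem_notMem_of_card_lt_card hcard
    rw [Finset.mem_Icc] at hv
    have key : ∀ f : E → ℤ, ∑ e, f e * Function.update y a v e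
        = f a * v + ∑ e ∈ Finset.univ.erase a, f e * y e := by
      intro f
      rw [← Finset.add_sum_erase Finset.univ _ (Finset.mem_univ a), Function.update_self]
      congr 1
      refine Finset.sum_congr rfl fun e he => ?_
      rw [Function.update_of_ne (Finset.ne_of_mem_erase he)]
    refine ⟨Function.update y a v, ?_, ?_⟩
    · intro e
      by_cases he : e = a
      · subst he
        rw [Function.update_self]
        exact hv
      · rw [Function.update_of_ne he]
        exact hy e
    · intro f hfF hf0 hf hsum
      rw [key f] at hsum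
      by_cases hfa : f a = 0
      · refine hyF f hfF hf0 ?_ ?_
        · intro e he
          by_cases hea : e = a
          · rw [hea]; exact hfa
          · exact hf e (by simp [hea, he])
        · rw [← Finset.add_sum_erase Finset.univ _ (Finset.mem_univ a), hfa, zero_mul]
          rw [hfa, zero_mul] at hsum
          exact hsum
      · apply hvn
        rw [Finset.mem_image]
        refine ⟨f, Finset.mem_filter.mpr ⟨hfF, hfa⟩, ?_⟩
        have h1 : -(∑ e ∈ Finset.univ.erase a, f e * y e) = f a * v := by linarith
        rw [h1]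
        exact Int.mul_ediv_cancel_left v hfa

theorem stGreedy : StGreedy := by
  intro E _ F K hK hF
  obtain ⟨y, hy, hyF⟩ := greedy_aux E F K hK Finset.univ
  exact ⟨y, hy, fun f hf => hyF f hf (hF f hf) fun e he => absurd (Finset.mem_univ e) he⟩

end Pool.Agent.Helper96.FL
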